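import Pool.Agent.Helper50.GX.Defs

/-!
# Module DET: determinant of `M - s` in terms of traces
-/

set_option autoImplicit false

namespace Pool.Agent.Helper50.GX

open Polynomial

theorem det_adj (R : Type) [CommRing R] (M : Matrix (Fin 3) (Fin 3) R) (s : R) :
    (M - s • (1 : Matrix (Fin 3) (Fin 3) R)).det =
      M.det - s * M.adjugate.trace + s ^ 2 * M.trace - s ^ 3 := by
  rw [Matrix.det_fin_three, Matrix.det_fin_three, Matrix.adjugate_fin_three,
    Matrix.trace_fin_three, Matrix.trace_fin_three]
  simp only [Matrix.sub_apply, Matrix.smul_apply, Matrix.one_apply, smul_eq_mul, Matrix.of_apply,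
    Matrix.cons_val', Matrix.cons_val_zero, Matrix.cons_val_one, Matrix.cons_val_fin_one,
    Matrix.cons_val]
  simp only [Fin.isValue, if_true, Fin.reduceEq, if_false, mul_one, mul_zero, sub_zero]
  ring

theorem st_DET : ST_DET := by
  intro R _ _ M N s hs hMN hdet
  have h1 : M.adjugate * (M * N) = (M.adjugate * M) * N := by rw [Matrix.mul_assoc]
  rw [hMN, Matrix.adjugate_mul, hdet, Matrix.mul_smul, Matrix.mul_one, Matrix.smul_mul,
    Matrix.one_mul] at h1
  have h3 : M.adjugate = s • N := by
    ext i j
    have h2 := congrFun (congrFun h1 i) j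
    rw [Matrix.smul_apply, Matrix.smul_apply, smul_eq_mul, smul_eq_mul] at h2
    apply mul_left_cancel₀ (pow_ne_zero 2 hs)
    rw [h2, Matrix.smul_apply, smul_eq_mul]
    ring
  rw [det_adj, h3, hdet, Matrix.trace_smul, smul_eq_mul]
  ring

end Pool.Agent.Helper50.GX
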